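import Pool.Agent.H920R2.Cu10

set_option autoImplicit false

open AlgebraicGeometry CategoryTheory TensorProduct Pool.Agent.H920R2

universe u

namespace Pool.Agent.Results.MP_b525bf_ag.CurveProducts

variable {k : Type u} [Field k] {n : ℕ} {A : Fin n → Type u} [∀ i, CommRing (A i)]
  [∀ i, Algebra k (A i)]

/-- The multilinear map `a ↦ ⨂ σ_i (a_i)`. -/
noncomputable def diagMul (σ : ∀ i, A i ≃ₐ[k] A i) : MultilinearMap k A (⨂[k] i, A i) :=
  (PiTensorProduct.tprod k).compLinearMap fun i => (σ i).toLinearMap

/-- The diagonal endomorphism of the algebra `⨂ A_i`, which maps `⨂ a_i` to `⨂ σ_i (a_i)`. -/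
noncomputable def diag (σ : ∀ i, A i ≃ₐ[k] A i) : (⨂[k] i, A i) →ₐ[k] (⨂[k] i, A i) :=
  PiTensorProduct.liftAlgHom (diagMul σ)
    (by
      change PiTensorProduct.tprod k (fun i => σ i ((1 : ∀ i, A i) i)) = _
      rw [PiTensorProduct.one_def]
      congr 1
      funext i
      exact map_one (σ i))
    (by
      intro x y
      change PiTensorProduct.tprod k (fun i => σ i ((x * y) i)) =
        PiTensorProduct.tprod k (fun i => σ i (x i)) * PiTensorProduct.tprod k (fun i => σ i (y i))
      rw [PiTensorProduct.tprod_mul_tprod]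
      congr 1
      funext i
      exact map_mul (σ i) _ _)

theorem diag_tprod (σ : ∀ i, A i ≃ₐ[k] A i) (a : ∀ i, A i) :
    diag σ (PiTensorProduct.tprod k a) = PiTensorProduct.tprod k fun i => σ i (a i) :=
  PiTensorProduct.lift.tprod a

/-- The algebra of invariants of `diag σ`. -/
noncomputable def invariants (σ : ∀ i, A i ≃ₐ[k] A i) : Subalgebra k (⨂[k] i, A i) :=
  AlgHom.equalizer (diag σ) (AlgHom.id k (⨂[k] i, A i))

/-- The quotient of the product of the `Spec (A i)` by the diagonal automorphism. -/
noncomputable def quot (σ : ∀ i, A i ≃ₐ[k] A i) : Scheme.{u} :=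
  Spec (CommRingCat.of (invariants σ))

/-- The structure morphism of the quotient. -/
noncomputable def quotStr (σ : ∀ i, A i ≃ₐ[k] A i) : quot σ ⟶ Spec (CommRingCat.of k) :=
  Spec.map (CommRingCat.ofHom (algebraMap k (invariants σ)))

/-- Let `p` be a prime, `k` a perfect field of characteristic `p`, and `A i` finitely many
Dedekind domains which are smooth over `k` and not fields (smooth affine curves), whose tensor
product is a domain, which is automatic if `k` is algebraically closed. Let `σ i` be automorphisms
of the `A i` over `k` with `(σ i) ^ p = 1`. Then the quotient of the product of the curves by the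
diagonal automorphism is a variety and has a resolution of singularities. -/
theorem result (p : ℕ) [Fact p.Prime] (k : Type u) [Field k] [CharP k p] [PerfectField k] (n : ℕ)
    (A : Fin n → Type u) [∀ i, CommRing (A i)] [∀ i, IsDedekindDomain (A i)]
    [∀ i, Algebra k (A i)] [∀ i, Algebra.Smooth k (A i)] (hA : ∀ i, ¬ IsField (A i))
    (hdom : IsAlgClosed k ∨ IsDomain (⨂[k] i, A i))
    (σ : ∀ i, A i ≃ₐ[k] A i) (hσ : ∀ i, σ i ^ p = 1) :
    IsVariety (quotStr σ) ∧
    ∃ (Y : Scheme.{u}) (π : Y ⟶ quot σ),
      AlgebraicGeometry.IsIntegral Y ∧ AlgebraicGeometry.IsProper π ∧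
      AlgebraicGeometry.Smooth (π ≫ quotStr σ) ∧
      ∃ U : (quot σ).Opens, Dense (U : Set (quot σ)) ∧ IsIso (π ∣_ U) := by
  have hp : p.Prime := Fact.out
  have hpk : (p : k) = 0 := CharP.cast_eq_zero k p
  have hdomB : IsDomain (⨂[k] i, A i) := by
    rcases hdom with h | h
    · exact isDomain_pi n A
    · exact h
  have hj := isCoprod_pi (k := k) (A := A)
  obtain ⟨s, hs⟩ := exists_equiv_coprod hj σ
  have hds : diag σ = (s : (⨂[k] i, A i) →ₐ[k] (⨂[k] i, A i)) := by
    apply hj.ext
    intro i a
    change diag σ (PiTensorProduct.tprod k (MonoidHom.mulSingle _ i a)) =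
      s (PiTensorProduct.singleAlgHom (R := k) (A := A) i a)
    rw [diag_tprod, hs]
    change _ = PiTensorProduct.tprod k (MonoidHom.mulSingle _ i (σ i a))
    congr 1
    funext l
    rw [MonoidHom.mulSingle_apply, MonoidHom.mulSingle_apply]
    by_cases hl : l = i
    · subst hl
      rw [Pi.mulSingle_eq_same, Pi.mulSingle_eq_same]
    · rw [Pi.mulSingle_eq_of_ne hl, Pi.mulSingle_eq_of_ne hl, map_one]
  have hinv : invariants σ = fixedAlg s := by
    unfold invariants fixedAlg
    rw [hds]
  have hσ' : ∀ i a, (σ i)^[p] a = a := by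
    intro i a
    have h1 : ∀ n : ℕ, (σ i ^ n) a = (σ i)^[n] a := by
      intro n
      induction n generalizing a with
      | zero => rfl
      | succ n ih => rw [pow_succ, Function.iterate_succ_apply, ← ih]; rfl
    rw [← h1, hσ i]
    rfl
  have hft : Algebra.FiniteType k (⨂[k] i, A i) := coprod_finiteType hj fun i => inferInstance
  have hit := prod_iter hj hσ' hs
  have hres := hasResolution_curves hp hpk hj (fun i => single_injective i)
    (fun i => inferInstance) (fun i => inferInstance) hσ' hA hs
  have hftI : Algebra.FiniteType k (fixedAlg s) := finiteType_fixedAlg s p hp.pos hit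
  have hftI' : Algebra.FiniteType k (invariants σ) := by rw [hinv]; exact hftI
  refine ⟨isVariety_spec, ?_⟩
  have hres' : HasResolution (X := Spec (CommRingCat.of (invariants σ)))
      (Spec.map (CommRingCat.ofHom (algebraMap k (invariants σ)))) := by
    rw [hinv]
    exact hres
  exact hres'

end Pool.Agent.Results.MP_b525bf_ag.CurveProducts
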