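import Pool.Agent.H920R2.Sig10

set_option autoImplicit false

open AlgebraicGeometry CategoryTheory MvPolynomial Pool.Agent.H920R2

universe u

namespace Pool.Agent.Results.MP_b525bf_ag.LinearZp

/-- The quotient of affine `n`-space over `k` by the group generated by the linear substitution
`X i ↦ ∑ j, M i j * X j`: the spectrum of the ring of polynomials which are fixed by it. -/
noncomputable def linQuot {k : Type u} [Field k] {n : ℕ} (M : Matrix (Fin n) (Fin n) k) :
    Scheme.{u} :=
  Spec (CommRingCat.of (AlgHom.equalizer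
    (aeval fun i => ∑ j, C (M i j) * X j : MvPolynomial (Fin n) k →ₐ[k] MvPolynomial (Fin n) k)
    (AlgHom.id k (MvPolynomial (Fin n) k))))

/-- The structure morphism of the quotient. -/
noncomputable def linQuotStr {k : Type u} [Field k] {n : ℕ} (M : Matrix (Fin n) (Fin n) k) :
    linQuot M ⟶ Spec (CommRingCat.of k) :=
  Spec.map (CommRingCat.ofHom (algebraMap k (AlgHom.equalizer
    (aeval fun i => ∑ j, C (M i j) * X j : MvPolynomial (Fin n) k →ₐ[k] MvPolynomial (Fin n) k)
    (AlgHom.id k (MvPolynomial (Fin n) k)))))

/-- Let `p` be a prime and `k` a field of characteristic `p`. The quotient of affine `n`-space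
over `k` by an arbitrary linear action of a group of order `p` is a variety and has a resolution
of singularities. -/
theorem result (p : ℕ) [Fact p.Prime] (k : Type u) [Field k] [CharP k p] (n : ℕ)
    (M : Matrix (Fin n) (Fin n) k) (hM : M ^ p = 1) :
    IsVariety (linQuotStr M) ∧
    ∃ (Y : Scheme.{u}) (π : Y ⟶ linQuot M),
      AlgebraicGeometry.IsIntegral Y ∧ AlgebraicGeometry.IsProper π ∧
      AlgebraicGeometry.Smooth (π ≫ linQuotStr M) ∧
      ∃ U : (linQuot M).Opens, Dense (U : Set (linQuot M)) ∧ IsIso (π ∣_ U) :=
  ⟨isVariety_linInv' M p (Fact.out : p.Prime).pos hM,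
    hasResolution_linInv_p M p Fact.out (CharP.cast_eq_zero k p) hM⟩

end Pool.Agent.Results.MP_b525bf_ag.LinearZp
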