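import Pool.Agent.H920R2.Cy7

/-!
MP_b525bf_ag: resolution of the quotient of a power of a smooth affine variety in characteristic `p`
by a permutation of the factors of order `p`.
-/

set_option autoImplicit false

open AlgebraicGeometry CategoryTheory TensorProduct Pool.Agent.H920R2

universe u

namespace Pool.Agent.Results.MP_b525bf_ag.PermutationPowers

variable (k A : Type u) [Field k] [CommRing A] [Algebra k A] {n : ℕ}

/-- The permutation of the factors of the algebra `⨂ A`: it maps `⨂ a_i` to `⨂ a_{π i}`. -/
noncomputable def perm (π : Equiv.Perm (Fin n)) :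
    (⨂[k] _ : Fin n, A) →ₐ[k] (⨂[k] _ : Fin n, A) :=
  PiTensorProduct.liftAlgHom
    ((PiTensorProduct.tprod k : MultilinearMap k (fun _ : Fin n => A) _).domDomCongr π)
    (by
      rw [MultilinearMap.domDomCongr_apply, PiTensorProduct.one_def]
      rfl)
    (by
      intro x y
      rw [MultilinearMap.domDomCongr_apply, MultilinearMap.domDomCongr_apply,
        MultilinearMap.domDomCongr_apply, PiTensorProduct.tprod_mul_tprod]
      rfl)

theorem perm_tprod (π : Equiv.Perm (Fin n)) (a : Fin n → A) :
    perm k A π (PiTensorProduct.tprod k a) = PiTensorProduct.tprod k fun i => a (π i) :=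
  PiTensorProduct.lift.tprod a

/-- The algebra of invariants of `perm k A π`. -/
noncomputable def invariants (π : Equiv.Perm (Fin n)) : Subalgebra k (⨂[k] _ : Fin n, A) :=
  AlgHom.equalizer (perm k A π) (AlgHom.id k (⨂[k] _ : Fin n, A))

/-- The quotient of the `n`-th power of `Spec A` by the permutation `π` of the factors. -/
noncomputable def quot (π : Equiv.Perm (Fin n)) : Scheme.{u} :=
  Spec (CommRingCat.of (invariants k A π))

/-- The structure morphism of the quotient. -/
noncomputable def quotStr (π : Equiv.Perm (Fin n)) : quot k A π ⟶ Spec (CommRingCat.of k) :=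
  Spec.map (CommRingCat.ofHom (algebraMap k (invariants k A π)))

/-- Let `k` be a field of characteristic `p`, `W = Spec A` a smooth integral affine scheme over `k`
such that `W ^ n` is integral, which is automatic if `k` is algebraically closed, and `π` a
permutation of `n` letters with `π ^ p = 1`. Then the quotient of `W ^ n` by the permutation `π` of
the factors is a variety and has a resolution of singularities. -/
theorem result (p : ℕ) [Fact p.Prime] (k : Type u) [Field k] [CharP k p]
    (A : Type u) [CommRing A] [IsDomain A] [Algebra k A] [Algebra.Smooth k A] (n : ℕ)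
    (hdom : IsAlgClosed k ∨ IsDomain (⨂[k] _ : Fin n, A))
    (π : Equiv.Perm (Fin n)) (hπ : π ^ p = 1) :
    IsVariety (quotStr k A π) ∧
    ∃ (Y : Scheme.{u}) (f : Y ⟶ quot k A π),
      AlgebraicGeometry.IsIntegral Y ∧ AlgebraicGeometry.IsProper f ∧
      AlgebraicGeometry.Smooth (f ≫ quotStr k A π) ∧
      ∃ U : (quot k A π).Opens, Dense (U : Set (quot k A π)) ∧ IsIso (f ∣_ U) := by
  have hp : p.Prime := Fact.out
  have hpk : (p : k) = 0 := CharP.cast_eq_zero k p
  have hdomB : IsDomain (⨂[k] _ : Fin n, A) := by
    rcases hdom with h | h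
    · exact isDomain_pi n fun _ => A
    · exact h
  have hj := isCoprod_pi (k := k) (A := fun _ : Fin n => A)
  -- the permutation is an automorphism
  have hcomp : ∀ π π' : Equiv.Perm (Fin n), π * π' = 1 →
      (perm k A π).comp (perm k A π') = AlgHom.id k _ := by
    intro π π' h
    apply hj.ext
    intro i a
    change perm k A π (perm k A π' (PiTensorProduct.tprod k (MonoidHom.mulSingle _ i a))) =
      PiTensorProduct.tprod k (MonoidHom.mulSingle _ i a)
    rw [perm_tprod, perm_tprod]
    congr 1
    funext l
    have h1 : π' (π l) = l := by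
      have h2 : π' * π = 1 := by
        rw [mul_eq_one_iff_eq_inv] at h ⊢
        rw [h, inv_inv]
      exact congrArg (fun s : Equiv.Perm (Fin n) => s l) h2
    rw [h1]
  let s : (⨂[k] _ : Fin n, A) ≃ₐ[k] (⨂[k] _ : Fin n, A) :=
    AlgEquiv.ofAlgHom (perm k A π) (perm k A π⁻¹) (hcomp _ _ (mul_inv_cancel π))
      (hcomp _ _ (inv_mul_cancel π))
  have hs : ∀ i a, s (PiTensorProduct.singleAlgHom (R := k) (A := fun _ : Fin n => A) i a) =
      PiTensorProduct.singleAlgHom (R := k) (A := fun _ : Fin n => A) (π⁻¹ i) a := by
    intro i a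
    change perm k A π (PiTensorProduct.tprod k (MonoidHom.mulSingle _ i a)) =
      PiTensorProduct.tprod k (MonoidHom.mulSingle _ (π⁻¹ i) a)
    rw [perm_tprod]
    congr 1
    funext l
    rw [MonoidHom.mulSingle_apply, MonoidHom.mulSingle_apply]
    by_cases hl : l = π⁻¹ i
    · have h1 : π l = i := by
        rw [hl]
        exact Equiv.apply_symm_apply π i
      rw [h1, hl, Pi.mulSingle_eq_same, Pi.mulSingle_eq_same]
    · rw [Pi.mulSingle_eq_of_ne hl, Pi.mulSingle_eq_of_ne]
      intro h
      apply hl
      rw [← h]
      exact (Equiv.symm_apply_apply π l).symm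
  have hinv : invariants k A π = fixedAlg s := rfl
  have hft : Algebra.FiniteType k (⨂[k] _ : Fin n, A) := coprod_finiteType hj fun i => inferInstance
  have hπ' : π⁻¹ ^ p = 1 := by rw [inv_pow, hπ, inv_one]
  have hsp : ∀ b, s^[p] b = b := perm_iter hπ' hs
  have hres := hasResolution_perm hp hpk inferInstance s π⁻¹ hπ' hs
  have hftI : Algebra.FiniteType k (fixedAlg s) := finiteType_fixedAlg s p hp.pos hsp
  have hftI' : Algebra.FiniteType k (invariants k A π) := by rw [hinv]; exact hftI
  refine ⟨isVariety_spec, ?_⟩
  exact hres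

end Pool.Agent.Results.MP_b525bf_ag.PermutationPowers
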