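import Pool.Agent.H920R2.We3

set_option autoImplicit false

open AlgebraicGeometry CategoryTheory Pool.Agent.H920R2

universe u

namespace Pool.Agent.Results.MP_b525bf_ag.WeightedCentre

/-- The ring of invariants of an automorphism. -/
noncomputable def invariants {k B : Type u} [Field k] [CommRing B] [Algebra k B]
    (σ : B ≃ₐ[k] B) : Subalgebra k B := AlgHom.equalizer (σ : B →ₐ[k] B) (AlgHom.id k B)

/-- The quotient of `Spec B` by an automorphism. -/
noncomputable def quot {k B : Type u} [Field k] [CommRing B] [Algebra k B] (σ : B ≃ₐ[k] B) :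
    Scheme.{u} := Spec (CommRingCat.of (invariants σ))

/-- The structure morphism of the quotient. -/
noncomputable def quotStr {k B : Type u} [Field k] [CommRing B] [Algebra k B] (σ : B ≃ₐ[k] B) :
    quot σ ⟶ Spec (CommRingCat.of k) :=
  Spec.map (CommRingCat.ofHom (algebraMap k (invariants σ)))

/-- The elements which are, up to higher order, combinations of leading forms of the differences
`σ c - c`: the ideal generated by `F (m + 1)` and the products `b * (σ c - c)` with `c` of weight
`e` and `b` of weight `m - (e + l)`. -/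
def leading {k B : Type u} [Field k] [CommRing B] [Algebra k B] (σ : B ≃ₐ[k] B)
    (F : ℕ → Ideal B) (l m : ℕ) : Ideal B :=
  F (m + 1) ⊔ Ideal.span {y | ∃ e, ∃ c ∈ F e, ∃ b ∈ F (m - (e + l)), y = b * (σ c - c)}

/-- Let `X = Spec B` be a smooth affine variety over a field `k` of characteristic `p`, `σ` an
automorphism of `X` with `σ ^ p = 1` and `F` a regular weighted centre on `X`, such that

* `σ - 1` raises the weight of every element by `l > 0`,
* the fixed points of `σ` lie in the centre,
* the leading form of `σ - 1` has no zeros on the weighted normal cone outside its vertex, that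
  is, every element `a` of weight `d > 0` has a power `a ^ N` which is, up to elements of weight
  larger than `N * d`, a combination of the leading forms of the differences `σ c - c`.

Then the quotient of `X` by `σ` has a resolution of singularities. -/
theorem result (p : ℕ) [Fact p.Prime] (k : Type u) [Field k] [CharP k p] (B : Type u)
    [CommRing B] [IsDomain B] [Algebra k B] [Algebra.Smooth k B] (σ : B ≃ₐ[k] B) (hσ : σ ^ p = 1)
    (F : ℕ → Ideal B) (hF : RegularWeightedCentre k F) (hne : F 1 ≠ ⊥) (l : ℕ) (hl : 0 < l)
    (hdiv : ∀ d, ∀ a ∈ F d, σ a - a ∈ F (d + l))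
    (hfix : ∀ P : Ideal B, P.IsPrime → (∀ a, σ a - a ∈ P) → F 1 ≤ P)
    (hlead : ∀ d, 1 ≤ d → ∀ a ∈ F d, ∃ N : ℕ, a ^ N ∈ leading σ F l (N * d)) :
    IsVariety (quotStr σ) ∧
    ∃ (Y : Scheme.{u}) (π : Y ⟶ quot σ),
      AlgebraicGeometry.IsIntegral Y ∧ AlgebraicGeometry.IsProper π ∧
      AlgebraicGeometry.Smooth (π ≫ quotStr σ) ∧
      ∃ U : (quot σ).Opens, Dense (U : Set (quot σ)) ∧ IsIso (π ∣_ U) := by
  have hp : p.Prime := Fact.out
  have hpk : (p : k) = 0 := CharP.cast_eq_zero k p
  have hσ' : ∀ a, σ^[p] a = a := by
    intro a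
    have h1 : ∀ n : ℕ, (σ ^ n) a = σ^[n] a := by
      intro n
      induction n generalizing a with
      | zero => rfl
      | succ n ih => rw [pow_succ, Function.iterate_succ_apply, ← ih]; rfl
    rw [← h1, hσ]
    rfl
  have hft : Algebra.FiniteType k (invariants σ) := finiteType_fixedAlg σ p hp.pos hσ'
  exact ⟨isVariety_spec, hasResolution_centre hp hpk inferInstance σ hσ' hF hne hl hdiv hfix hlead⟩

end Pool.Agent.Results.MP_b525bf_ag.WeightedCentre
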